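import Pool.Agent.Q12.MI2.Stm

/-!
# Project MI2 (helper12): HAM, the noncommuting blocks
-/

set_option autoImplicit false

namespace Pool.Agent.Q48.MI2

open Finset Q12.MI2 Q12.MI2.Tor

universe u

section

variable {K : Type u} {V W V₀ : Type} [Field K] [CharP K 2] [AddCommGroup V]

lemma sq_inj {a b : K} (h : a ^ 2 = b ^ 2) : a = b := by
  have h1 : (a + b) ^ 2 = 0 := by rw [CharTwo.add_sq, h, CharTwo.add_self_eq_zero]
  have h2 : a + b = 0 := pow_eq_zero_iff two_ne_zero |>.1 h1
  exact CharTwo.add_eq_zero.1 h2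

lemma sq_apply (u : V →+ K) (x : V) : sq u x = u x ^ 2 := rfl

lemma exists_sq (hs : ∀ a : K, ∃ b, b ^ 2 = a) (ζ : V →+ K) : ∃ u : V →+ K, sq u = ζ := by
  choose r hr using hs
  refine ⟨{ toFun := fun v => r (ζ v), map_zero' := ?_, map_add' := ?_ }, ?_⟩
  · apply sq_inj
    rw [hr, map_zero]
    simp
  · intro x y
    apply sq_inj
    rw [hr, CharTwo.add_sq, hr, hr, map_add]
  · ext v
    exact hr _

omit [CharP K 2] in
/-- evaluation at a vector -/
def ev (v : V) : Module.Dual K (V →+ K) where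
  toFun ζ := ζ v
  map_add' _ _ := rfl
  map_smul' _ _ := rfl

omit [CharP K 2] in
@[simp] lemma ev_apply (v : V) (ζ : V →+ K) : ev v ζ = ζ v := rfl

omit [CharP K 2] in
lemma finite_dim [Finite V] : FiniteDimensional K (V →+ K) := by
  let L : (V →+ K) →ₗ[K] (V → K) :=
    { toFun := fun ζ v => ζ v
      map_add' := fun _ _ => rfl
      map_smul' := fun _ _ => rfl }
  have hL : Function.Injective L := by
    intro a b h
    ext v
    exact congrFun h v
  exact FiniteDimensional.of_injective L hL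

variable [AddCommGroup W]

/-- an additive function with value one at a given vector -/
lemma exists_psi (hW : ∀ w : W, w + w = 0) {c : W} (hc : c ≠ 0) : ∃ ψ : W →+ K, ψ c = 1 := by
  letI : Module (ZMod 2) W := AddCommGroup.zmodModule (fun w => by rw [two_nsmul]; exact hW w)
  obtain ⟨φ, hφ⟩ : ∃ φ : Module.Dual (ZMod 2) W, φ c ≠ 0 := by
    by_contra hcon
    push Not at hcon
    exact hc ((Module.forall_dual_apply_eq_zero_iff (ZMod 2) c).1 hcon)
  have h1 : φ c = 1 := by
    have : ∀ x : ZMod 2, x ≠ 0 → x = 1 := by decide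
    exact this _ hφ
  refine ⟨(ZMod.castHom (dvd_refl 2) K).toAddMonoidHom.comp φ.toAddMonoidHom, ?_⟩
  show ZMod.castHom (dvd_refl 2) K (φ c) = 1
  rw [h1, map_one]

omit [CharP K 2] in
/-- the map from functionals to additive functions -/
def lamb (β : V →+ V →+ W) (ψ : W →+ K) : Module.Dual K (V →+ K) →ₗ[K] (V →+ K) where
  toFun y := (y : (V →+ K) →+ K).comp ((AddMonoidHom.compHom ψ).comp β)
  map_add' _ _ := rfl
  map_smul' _ _ := rfl

omit [CharP K 2] in
lemma lamb_apply (β : V →+ V →+ W) (ψ : W →+ K) (y : Module.Dual K (V →+ K)) (x : V) :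
    lamb β ψ y x = y (ψ.comp (β x)) := rfl

end

section

variable {K : Type u} {V W V₀ : Type} [Field K] [CharP K 2] [AddCommGroup V] [Fintype V]
  [AddCommGroup W] [AddCommGroup V₀] {T : Tor K V W V₀} (B : BadFacts T)

omit [CharP K 2] in
lemma lam_zero_iff {v x : V} : lam K T.β v x = 0 ↔ T.β v x = 0 := by
  unfold lam
  split_ifs with h
  · simp [h]
  · simp [h]

omit [CharP K 2] in
lemma lam_one_iff {v x : V} : lam K T.β v x = 1 ↔ T.β v x ≠ 0 := by
  unfold lam
  split_ifs with h
  · simp [h]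
  · simp [h]

omit [CharP K 2] in
lemma lam_sq {v x : V} : lam K T.β v x * lam K T.β v x = lam K T.β v x := by
  unfold lam
  split_ifs <;> simp

omit [CharP K 2] in
lemma exists_ne {v : V} (hv : v ≠ 0) : ∃ x, T.β v x ≠ 0 := by
  by_contra hcon
  push Not at hcon
  exact hv (T.nondeg v hcon)

include B in
omit [CharP K 2] in
lemma lam_self (v : V) : lam K T.β v v = 0 := lam_zero_iff.2 (B.alt v)

include B in
omit [CharP K 2] in
lemma lam_symm (v v' : V) : lam K T.β v v' = lam K T.β v' v := by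
  unfold lam
  rw [B.sym]

omit [CharP K 2] in
lemma psi_lam {c : W} {ψ : W →+ K} (hψ : ψ c = 1) {v : V} (hv : T.Val c v) (x : V) :
    ψ (T.β v x) = lam K T.β v x := by
  unfold lam
  rcases hv x with h | h
  · rw [if_pos h, h, map_zero]
  · by_cases h0 : T.β v x = 0
    · rw [if_pos h0, h0, map_zero]
    · rw [if_neg h0, h, hψ]

include B in
omit [CharP K 2] in
lemma lamb_ev {c : W} {ψ : W →+ K} (hψ : ψ c = 1) {v : V} (hv : T.Val c v) (x : V) :
    lamb T.β ψ (ev v) x = lam K T.β v x := by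
  rw [lamb_apply, ev_apply]
  show ψ (T.β x v) = _
  rw [B.sym, psi_lam hψ hv]

open Classical in
omit [CharP K 2] in
lemma mem_blkH {c : W} {v : V} : v ∈ T.blkH c ↔ T.HTy v ∧ T.Val c v := by
  unfold Tor.blkH
  rw [Finset.mem_filter]
  exact ⟨fun h => h.2, fun h => ⟨Finset.mem_univ _, h⟩⟩

omit [CharP K 2] in
lemma blk_ne {c : W} {v : V} (h : v ∈ T.blkH c) : v ≠ 0 := (mem_blkH.1 h).1.1.1

include B in
omit [CharP K 2] in
/-- the components outside the block vanish on the block -/
lemma mu_out {c : W} {v v' : V} (hv : v ∈ T.blkH c) (hv' : v' ∉ T.blkH c) (h0 : v' ≠ 0)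
    (u : V →+ K) : T.μ v' u v = 0 := by
  by_contra hne
  obtain ⟨hH, hval⟩ := mem_blkH.1 hv
  have hmu : T.μ v' u ≠ 0 := by
    intro h
    rw [h] at hne
    exact hne rfl
  have hbad := (T.hT v' h0 u hmu).1
  by_cases h1 : T.β v' v = 0
  · have h2 := B.comm v' v u h0 hH.1 h1 hne
    have h3 := B.huniq v v' hH hbad (fun x => (h2 x).symm)
    rw [h3] at hv'
    exact hv' hv
  · have h2 := B.noncomm v' v hbad hH.1 h1
    have h3 := B.valuniq v (T.β v' v) c hH.1.1 h2.2 hval
    apply hv'
    rw [mem_blkH]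
    refine ⟨⟨hbad, v, hH.1, h1⟩, ?_⟩
    rw [← h3]
    exact h2.1

include B in
omit [CharP K 2] in
/-- the terms of the commutation relation outside the block vanish -/
lemma term_out {c : W} {w v : V} (hw : w ∈ T.blkH c) (hv : v ∉ T.blkH c) (h0 : v ≠ 0)
    (u u' : V →+ K) (x : V) : T.μ (w + v) u v * T.μ v u' x = 0 := by
  by_contra hne
  have hne1 : T.μ (w + v) u v ≠ 0 := left_ne_zero_of_mul hne
  have hne2 : T.μ v u' x ≠ 0 := right_ne_zero_of_mul hne
  obtain ⟨hH, hval⟩ := mem_blkH.1 hw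
  have hw0 : w ≠ 0 := hH.1.1
  have hvv : v + v = 0 := T.hV v
  have hv'0 : w + v ≠ 0 := by
    intro h
    have : w = v := by
      have h2 : w + v + v = 0 + v := by rw [h]
      rwa [add_assoc, hvv, add_zero, zero_add] at h2
    rw [this] at hw
    exact hv hw
  have hmu1 : T.μ (w + v) u ≠ 0 := by
    intro h
    rw [h] at hne1
    exact hne1 rfl
  have hmu2 : T.μ v u' ≠ 0 := by
    intro h
    rw [h] at hne2
    exact hne2 rfl
  have hb1 := (T.hT (w + v) hv'0 u hmu1).1
  have hb2 := (T.hT v h0 u' hmu2).1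
  have hsum : (w + v) + v = w := by rw [add_assoc, hvv, add_zero]
  by_cases h1 : T.β (w + v) v = 0
  · -- commuting
    have h2 := B.comm (w + v) v u hv'0 hb2 h1 hne1
    have hbadd : ∀ y, T.β w y = T.β (w + v) y + T.β v y := by
      intro y
      have : T.β w y = T.β ((w + v) + v) y := by rw [hsum]
      rw [this, map_add, AddMonoidHom.add_apply]
    have h3 : ∀ y, lam K T.β v y = lam K T.β w y := by
      obtain ⟨c1, hc1, hv1⟩ := B.val v hb2
      obtain ⟨c2, hc2, hv2⟩ := B.val (w + v) hb1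
      obtain ⟨x0, hx0⟩ := exists_ne (T := T) hw0
      have h4 : c2 + c1 ≠ 0 := by
        intro h5
        apply hx0
        rw [hbadd]
        by_cases h6 : T.β v x0 = 0
        · have h7 := h2 x0
          rw [lam_zero_iff.2 h6] at h7
          rw [lam_zero_iff.1 h7.symm, h6, add_zero]
        · have h7 := h2 x0
          rw [lam_one_iff.2 h6] at h7
          have h8 := lam_one_iff.1 h7.symm
          rw [(hv1 x0).resolve_left h6, (hv2 x0).resolve_left h8]
          exact h5
      intro y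
      by_cases h6 : T.β v y = 0
      · have h7 := h2 y
        rw [lam_zero_iff.2 h6] at h7
        rw [lam_zero_iff.2 h6]
        symm
        rw [lam_zero_iff, hbadd, lam_zero_iff.1 h7.symm, h6, add_zero]
      · have h7 := h2 y
        rw [lam_one_iff.2 h6] at h7
        have h8 := lam_one_iff.1 h7.symm
        rw [lam_one_iff.2 h6]
        symm
        rw [lam_one_iff, hbadd, (hv1 y).resolve_left h6, (hv2 y).resolve_left h8]
        exact h4
    have h4 := B.huniq w v hH hb2 h3
    rw [h4] at hv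
    exact hv hw
  · have h2 := B.noncomm (w + v) v hb1 hb2 h1
    have h3 := B.yadd _ _ _ h2.1 h2.2
    rw [hsum] at h3
    have h4 := B.valuniq w _ c hw0 h3 hval
    apply hv
    rw [mem_blkH]
    refine ⟨⟨hb2, w + v, hb1, by rw [B.sym]; exact h1⟩, ?_⟩
    rw [← h4]
    exact h2.2

include B in
omit [CharP K 2] in
/-- sums of noncommuting members of the block are in the block -/
lemma blk_add {c : W} {v v' : V} (hv : v ∈ T.blkH c) (hv' : v' ∈ T.blkH c)
    (h : T.β v v' ≠ 0) : v + v' ∈ T.blkH c := by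
  obtain ⟨hH, hval⟩ := mem_blkH.1 hv
  obtain ⟨hH', hval'⟩ := mem_blkH.1 hv'
  have h1 : T.β (v + v') v ≠ 0 := by
    rw [map_add, AddMonoidHom.add_apply, B.alt, zero_add, B.sym]
    exact h
  have h2 := B.yadd c v v' hval hval'
  have h3 : v + v' ≠ 0 := by
    intro h4
    rw [h4] at h1
    apply h1
    rw [map_zero]
    rfl
  rw [mem_blkH]
  exact ⟨⟨⟨h3, c, h2⟩, v, hH.1, h1⟩, h2⟩

end

section main

variable {K : Type u} {V W V₀ : Type} [Field K] [CharP K 2] [AddCommGroup V] [Fintype V]
  [AddCommGroup W] [AddCommGroup V₀] {T : Tor K V W V₀} (B : BadFacts T) {c : W}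

include B in
omit [CharP K 2] in
/-- the coefficients of the components -/
lemma exists_a (hS : ¬ T.Spl c) : ∃ a : V → Module.Dual K (V →+ K), ∀ v ∈ T.blkH c, ∀ u x,
    T.μ v u x = a v u * lam K T.β v x := by
  have key : ∀ v : V, ∃ α : Module.Dual K (V →+ K), v ∈ T.blkH c → ∀ u x,
      T.μ v u x = α u * lam K T.β v x := by
    intro v
    by_cases hv : v ∈ T.blkH c
    · obtain ⟨hH, hval⟩ := mem_blkH.1 hv
      obtain ⟨hbad, t, ht, hne⟩ := hH
      refine ⟨(ev t) ∘ₗ (T.μ v), fun _ u x => ?_⟩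
      rw [B.plane v t u hbad ht hne x]
      have h1 : T.μ v u v = 0 := by
        by_contra h2
        exact hS ⟨v, ⟨hbad, t, ht, hne⟩, hval, u, h2⟩
      rw [h1, zero_mul, zero_add]
      rfl
    · exact ⟨0, fun h => absurd h hv⟩
  choose a ha using key
  exact ⟨a, ha⟩

variable {a : V → Module.Dual K (V →+ K)}
  (ha : ∀ v ∈ T.blkH c, ∀ u x, T.μ v u x = a v u * lam K T.β v x)

include B ha in
omit [CharP K 2] in
open Classical in
/-- the terms of the commutation relation -/
lemma term_eq {w : V} (hw : w ∈ T.blkH c) (u u' : V →+ K) (x : V) :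
    ∑ v, T.μ (w + v) u v * T.μ v u' x =
      (∑ v ∈ T.blkH c, if w + v ∈ T.blkH c then
        a (w + v) u * lam K T.β v (w + v) * a v u' * lam K T.β v x else 0) +
      T.μ 0 u w * a w u' * lam K T.β w x := by
  have h0 : (0 : V) ∉ T.blkH c := fun h => blk_ne h rfl
  have h1 : ∑ v, T.μ (w + v) u v * T.μ v u' x =
      ∑ v ∈ T.blkH c, T.μ (w + v) u v * T.μ v u' x := by
    symm
    refine Finset.sum_subset (Finset.subset_univ _) fun v _ hv => ?_
    by_cases hv0 : v = 0
    · rw [hv0, map_zero, zero_mul]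
    · exact term_out B hw hv hv0 u u' x
  have h2 : ∀ v ∈ T.blkH c, T.μ (w + v) u v * T.μ v u' x =
      (if w + v ∈ T.blkH c then
        a (w + v) u * lam K T.β v (w + v) * a v u' * lam K T.β v x else 0) +
      (if v = w then T.μ 0 u w * a w u' * lam K T.β w x else 0) := by
    intro v hv
    by_cases hvw : v = w
    · have h3 : w + v = 0 := by rw [hvw]; exact T.hV w
      rw [h3, if_neg h0, if_pos hvw, zero_add, ha v hv, hvw]
      ring
    · rw [if_neg hvw, add_zero]
      have h3 : w + v ≠ 0 := by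
        intro h4
        apply hvw
        have h5 : w + v + v = 0 + v := by rw [h4]
        rw [add_assoc, T.hV v, add_zero, zero_add] at h5
        exact h5.symm
      split_ifs with h4
      · rw [ha _ h4, ha v hv, lam_symm B (w + v) v]
        ring
      · rw [mu_out B hv h4 h3 u, zero_mul]
  rw [h1, Finset.sum_congr rfl h2, Finset.sum_add_distrib]
  congr 1
  rw [Finset.sum_ite_eq' (T.blkH c) w, if_pos hw]

include B ha in
open Classical in
/-- the commutation relation at a member of the block -/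
lemma star {w : V} (hw : w ∈ T.blkH c) (u u' : V →+ K) :
    T.μ 0 u w * a w u' + T.μ 0 u' w * a w u + (∑ v ∈ T.blkH c, if w + v ∈ T.blkH c then
        lam K T.β v (w + v) * a (w + v) u * a v u' else 0) = 0 := by
  obtain ⟨x, hx⟩ := exists_ne (T := T) (blk_ne hw)
  have hx1 : lam K T.β w x = 1 := lam_one_iff.2 hx
  have h1 : ∑ v, (T.μ (w + v) u v * T.μ v u' x + T.μ (w + v) u' v * T.μ v u x) = 0 := by
    have h2 : (∑ v, ((T.μ (w + v) u v) • T.μ v u' + (T.μ (w + v) u' v) • T.μ v u)) x = 0 := by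
      rw [T.hcomm u u' w]
      rfl
    rw [AddMonoidHom.finsetSum_apply] at h2
    exact h2
  rw [Finset.sum_add_distrib, term_eq B ha hw u u' x, term_eq B ha hw u' u x, hx1] at h1
  -- the substitution
  have hsub : ∑ v ∈ T.blkH c, (if w + v ∈ T.blkH c then
        a (w + v) u' * lam K T.β v (w + v) * a v u * lam K T.β v x else 0) =
      ∑ v ∈ T.blkH c, (if w + v ∈ T.blkH c then
        a v u' * lam K T.β v (w + v) * a (w + v) u * lam K T.β (w + v) x else 0) := by
    rw [← Finset.sum_filter, ← Finset.sum_filter]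
    have hww : ∀ v, w + (w + v) = v := fun v => by rw [← add_assoc, T.hV, zero_add]
    refine Finset.sum_nbij' (fun v => w + v) (fun v => w + v) ?_ ?_ ?_ ?_ ?_
    · intro v hv
      rw [Finset.mem_filter] at hv ⊢
      rw [hww]
      exact ⟨hv.2, hv.1⟩
    · intro v hv
      rw [Finset.mem_filter] at hv ⊢
      rw [hww]
      exact ⟨hv.2, hv.1⟩
    · intro v _
      exact hww v
    · intro v _
      exact hww v
    · intro v _
      rw [hww, lam_symm B (w + v) v]
  rw [hsub] at h1
  have hadd : ∑ v ∈ T.blkH c, (if w + v ∈ T.blkH c then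
        a (w + v) u * lam K T.β v (w + v) * a v u' * lam K T.β v x else 0) +
      ∑ v ∈ T.blkH c, (if w + v ∈ T.blkH c then
        a v u' * lam K T.β v (w + v) * a (w + v) u * lam K T.β (w + v) x else 0) =
      ∑ v ∈ T.blkH c, if w + v ∈ T.blkH c then
        lam K T.β v (w + v) * a (w + v) u * a v u' else 0 := by
    rw [← Finset.sum_add_distrib]
    refine Finset.sum_congr rfl fun v hv => ?_
    split_ifs with h4
    · have h5 := B.lamadd c v (w + v) (mem_blkH.1 hv).2 (mem_blkH.1 h4).2 x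
      have h6 : v + (w + v) = w := by
        rw [add_comm w v, ← add_assoc, T.hV, zero_add]
      rw [h6, hx1] at h5
      have h7 : lam K T.β v x + lam K T.β (w + v) x = 1 := h5.symm
      linear_combination (a (w + v) u * lam K T.β v (w + v) * a v u') * h7
    · simp
  linear_combination h1 - hadd

include B ha in
/-- the component at zero on the block -/
lemma mu_zero {w : V} (hw : w ∈ T.blkH c) (u : V →+ K) :
    T.μ 0 u w = u w + ∑ v ∈ T.blkH c, a v u * lam K T.β v w := by
  classical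
  have h0 : (0 : V) ∉ T.blkH c := fun h => blk_ne h rfl
  have h1 : ∑ v, T.μ v u w = u w := by
    have h2 : (∑ v, T.μ v u) w = u w := by rw [T.h1 u]
    rw [AddMonoidHom.finsetSum_apply] at h2
    exact h2
  have h2 : ∑ v ∈ insert 0 (T.blkH c), T.μ v u w = ∑ v, T.μ v u w := by
    refine Finset.sum_subset (Finset.subset_univ _) fun v _ hv => ?_
    rw [Finset.mem_insert, not_or] at hv
    exact mu_out B hw hv.2 hv.1 u
  rw [Finset.sum_insert h0, h1] at h2
  have h3 : ∑ v ∈ T.blkH c, T.μ v u w = ∑ v ∈ T.blkH c, a v u * lam K T.β v w :=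
    Finset.sum_congr rfl fun v hv => ha v hv u w
  rw [h3] at h2
  have h4 := CharTwo.add_self_eq_zero (∑ v ∈ T.blkH c, a v u * lam K T.β v w)
  linear_combination h2 - h4

include B ha in
/-- the quadratic relation -/
lemma rel (u u' : V →+ K) :
    ∑ w ∈ T.blkH c, u w * a w u' + ∑ w ∈ T.blkH c, u' w * a w u +
      ∑ v ∈ T.blkH c, ∑ v' ∈ T.blkH c, lam K T.β v v' * a v' u * a v u' = 0 := by
  classical
  obtain ⟨I, hI⟩ : ∃ I, I = T.blkH c := ⟨_, rfl⟩
  have h1 : ∑ w ∈ T.blkH c, (T.μ 0 u w * a w u' + T.μ 0 u' w * a w u +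
      (∑ v ∈ T.blkH c, if w + v ∈ T.blkH c then
        lam K T.β v (w + v) * a (w + v) u * a v u' else 0)) = 0 :=
    Finset.sum_eq_zero fun w hw => star B ha hw u u'
  rw [Finset.sum_add_distrib, Finset.sum_add_distrib] at h1
  have h2 : ∑ w ∈ T.blkH c, (∑ v ∈ T.blkH c, if w + v ∈ T.blkH c then
        lam K T.β v (w + v) * a (w + v) u * a v u' else 0) =
      ∑ v ∈ T.blkH c, ∑ v' ∈ T.blkH c, lam K T.β v v' * a v' u * a v u' := by
    rw [Finset.sum_comm]
    refine Finset.sum_congr rfl fun v hv => ?_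
    have h3 : ∑ v' ∈ T.blkH c, lam K T.β v v' * a v' u * a v u' =
        ∑ v' ∈ T.blkH c, if v' + v ∈ T.blkH c then lam K T.β v v' * a v' u * a v u' else 0 := by
      refine Finset.sum_congr rfl fun v' hv' => ?_
      split_ifs with h4
      · rfl
      · have h5 : T.β v v' = 0 := by
          by_contra h6
          apply h4
          rw [add_comm]
          exact blk_add B hv hv' h6
        rw [lam_zero_iff.2 h5]
        ring
    rw [h3, ← Finset.sum_filter, ← Finset.sum_filter]
    have hww : ∀ w, w + v + v = w := fun w => by rw [add_assoc, T.hV, add_zero]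
    refine Finset.sum_nbij' (fun w => w + v) (fun w => w + v) ?_ ?_ ?_ ?_ ?_
    · intro w hw
      rw [Finset.mem_filter] at hw ⊢
      rw [hww]
      exact ⟨hw.2, hw.1⟩
    · intro w hw
      rw [Finset.mem_filter] at hw ⊢
      rw [hww]
      exact ⟨hw.2, hw.1⟩
    · intro w _
      exact hww w
    · intro w _
      exact hww w
    · intro w _
      rfl
  rw [h2] at h1
  have h3 : ∀ y y' : V →+ K, ∑ w ∈ T.blkH c, T.μ 0 y w * a w y' =
      ∑ w ∈ T.blkH c, y w * a w y' +
        ∑ v ∈ T.blkH c, ∑ v' ∈ T.blkH c, lam K T.β v v' * a v' y * a v y' := by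
    intro y y'
    rw [← Finset.sum_add_distrib]
    refine Finset.sum_congr rfl fun w hw => ?_
    rw [mu_zero B ha hw, add_mul, Finset.sum_mul]
    congr 1
    refine Finset.sum_congr rfl fun v _ => ?_
    rw [lam_symm B w v]
    ring
  have h4 : ∑ v ∈ T.blkH c, ∑ v' ∈ T.blkH c, lam K T.β v v' * a v' u' * a v u =
      ∑ v ∈ T.blkH c, ∑ v' ∈ T.blkH c, lam K T.β v v' * a v' u * a v u' := by
    rw [Finset.sum_comm]
    refine Finset.sum_congr rfl fun v _ => Finset.sum_congr rfl fun v' _ => ?_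
    rw [lam_symm B v v']
    ring
  rw [h3 u u', h3 u' u, h4] at h1
  have h5 := CharTwo.add_self_eq_zero
    (∑ v ∈ T.blkH c, ∑ v' ∈ T.blkH c, lam K T.β v v' * a v' u * a v u')
  linear_combination h1 - h5

/-- the space spanned by the evaluations -/
def Ysp (T : Tor K V W V₀) (c : W) : Submodule K (Module.Dual K (V →+ K)) :=
  Submodule.span K (ev '' {v | T.Val c v})

include B in
omit [CharP K 2] in
lemma lamb_symm {ψ : W →+ K} (hψ : ψ c = 1) {y y' : Module.Dual K (V →+ K)}
    (hy : y ∈ Ysp T c) (hy' : y' ∈ Ysp T c) : y (lamb T.β ψ y') = y' (lamb T.β ψ y) := by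
  have h1 : ∀ v', T.Val c v' → ∀ y ∈ Ysp T c, y (lamb T.β ψ (ev v')) = (lamb T.β ψ y) v' := by
    intro v' hv' y hy
    have h2 : Ysp T c ≤ LinearMap.eqLocus (Module.Dual.eval K (V →+ K) (lamb T.β ψ (ev v')))
        ((ev v') ∘ₗ (lamb T.β ψ)) := by
      unfold Ysp
      rw [Submodule.span_le]
      rintro _ ⟨v, hv, rfl⟩
      rw [SetLike.mem_coe, LinearMap.mem_eqLocus]
      show (lamb T.β ψ (ev v')) v = (lamb T.β ψ (ev v)) v'
      rw [lamb_ev B hψ hv', lamb_ev B hψ hv]
      exact lam_symm B _ _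
    exact LinearMap.mem_eqLocus.1 (h2 hy)
  have h3 : Ysp T c ≤ LinearMap.eqLocus (y ∘ₗ (lamb T.β ψ))
      (Module.Dual.eval K (V →+ K) (lamb T.β ψ y)) := by
    conv_lhs => unfold Ysp
    rw [Submodule.span_le]
    rintro _ ⟨v', hv', rfl⟩
    rw [SetLike.mem_coe, LinearMap.mem_eqLocus]
    exact h1 v' hv' y hy
  exact LinearMap.mem_eqLocus.1 (h3 hy')

include B in
lemma lamb_alt {ψ : W →+ K} (hψ : ψ c = 1) {y : Module.Dual K (V →+ K)}
    (hy : y ∈ Ysp T c) : y (lamb T.β ψ y) = 0 := by
  unfold Ysp at hy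
  induction hy using Submodule.span_induction with
  | mem x h =>
    obtain ⟨v, hv, rfl⟩ := h
    rw [ev_apply, lamb_ev B hψ hv]
    exact lam_self B v
  | zero => simp
  | add x z hx hz h1 h2 =>
    rw [map_add, LinearMap.add_apply, map_add, map_add, h1, h2, lamb_symm B hψ hx hz, zero_add,
      add_zero]
    exact CharTwo.add_self_eq_zero _
  | smul k x _ h1 =>
    rw [map_smul, LinearMap.smul_apply, map_smul, h1, smul_zero, smul_zero]

end main

/-- HAM. -/
theorem t_HAM : S_INJ.{u} → S_TRV.{u} → S_HAM.{u} := by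
  classical
  intro INJ TRV K _ _ hs V W V₀ _ _ _ _ T B c hS hsym Γ hΓ
  by_cases hI : (T.blkH c).Nonempty
  swap
  · rw [Finset.not_nonempty_iff_eq_empty] at hI
    have h1 : Γ = 0 := by
      apply LinearMap.ext
      intro ζ
      obtain ⟨u, rfl⟩ := exists_sq hs ζ
      rw [hΓ u]
      unfold Tor.bq
      rw [hI, Finset.sum_empty]
      rfl
    rw [h1, add_zero]
    exact Submonoid.one_mem _
  have hc : c ≠ 0 := by
    obtain ⟨v, hv⟩ := hI
    obtain ⟨x, hx⟩ := exists_ne (T := T) (blk_ne hv)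
    intro h
    rcases (mem_blkH.1 hv).2 x with h1 | h1
    · exact hx h1
    · rw [h] at h1
      exact hx h1
  obtain ⟨ψ, hψ⟩ := exists_psi (K := K) T.hW hc
  obtain ⟨a, ha⟩ := exists_a B hS
  haveI : FiniteDimensional K (V →+ K) := finite_dim
  have hval : ∀ v ∈ T.blkH c, T.Val c v := fun v hv => (mem_blkH.1 hv).2
  -- the trilinear form is symmetric
  have htri : ∀ ξ η θ : V →+ K, ∑ v ∈ T.blkH c, a v η * ξ v * θ v =
      ∑ v ∈ T.blkH c, a v ξ * η v * θ v := by
    intro ξ η θ
    have h1 : ∀ x, ∑ v, (if v ∈ T.blkH c then a v η * ξ v + a v ξ * η v else 0) *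
        lam K T.β v x = 0 := by
      intro x
      have h2 : (∑ v ∈ T.blkH c, ξ v • T.μ v η) x = (∑ v ∈ T.blkH c, η v • T.μ v ξ) x := by
        rw [hsym ξ η]
      rw [AddMonoidHom.finsetSum_apply, AddMonoidHom.finsetSum_apply] at h2
      have h3 : ∀ (ξ η : V →+ K), ∑ v ∈ T.blkH c, (ξ v • T.μ v η) x =
          ∑ v ∈ T.blkH c, a v η * ξ v * lam K T.β v x := by
        intro ξ η
        refine Finset.sum_congr rfl fun v hv => ?_
        show ξ v * T.μ v η x = _
        rw [ha v hv]
        ring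
      rw [h3, h3] at h2
      have h4 : ∀ v ∈ (Finset.univ : Finset V), (if v ∈ T.blkH c then
          a v η * ξ v + a v ξ * η v else 0) * lam K T.β v x =
          if v ∈ T.blkH c then (a v η * ξ v * lam K T.β v x + a v ξ * η v * lam K T.β v x)
            else 0 := by
        intro v _
        split_ifs
        · ring
        · rw [zero_mul]
      rw [Finset.sum_congr rfl h4, Finset.sum_ite_mem, Finset.univ_inter, Finset.sum_add_distrib,
        h2]
      exact CharTwo.add_self_eq_zero _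
    have h2 := INJ K V W V₀ T B c _ (fun v hv => by
      by_contra h5
      apply hv
      rw [if_neg]
      intro h6
      exact h5 (hval v h6)) h1 θ
    have h4 : ∀ v ∈ (Finset.univ : Finset V), (if v ∈ T.blkH c then
        a v η * ξ v + a v ξ * η v else 0) * θ v =
        if v ∈ T.blkH c then (a v η * ξ v * θ v + a v ξ * η v * θ v) else 0 := by
      intro v _
      split_ifs
      · ring
      · rw [zero_mul]
    rw [Finset.sum_congr rfl h4, Finset.sum_ite_mem, Finset.univ_inter,
      Finset.sum_add_distrib] at h2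
    exact CharTwo.add_eq_zero.1 h2
  -- the maps e and f
  let f0 : (V →+ K) →ₗ[K] Module.Dual K (V →+ K) := ∑ v ∈ T.blkH c, (a v).smulRight (ev v)
  let e0 : (V →+ K) →ₗ[K] Module.Dual K (V →+ K) := ∑ v ∈ T.blkH c, (ev v).smulRight (a v)
  have hf0 : ∀ ζ, f0 ζ = ∑ v ∈ T.blkH c, a v ζ • ev v := by
    intro ζ
    simp only [f0, LinearMap.sum_apply, LinearMap.smulRight_apply]
  have he0 : ∀ ζ, e0 ζ = ∑ v ∈ T.blkH c, ζ v • a v := by
    intro ζ
    simp only [e0, LinearMap.sum_apply, LinearMap.smulRight_apply, ev_apply]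
  have hevY : ∀ v ∈ T.blkH c, (ev v : Module.Dual K (V →+ K)) ∈ Ysp T c := fun v hv =>
    Submodule.subset_span ⟨v, hval v hv, rfl⟩
  have hfY : ∀ ζ, f0 ζ ∈ Ysp T c := by
    intro ζ
    rw [hf0]
    exact Submodule.sum_mem _ fun v hv => Submodule.smul_mem _ _ (hevY v hv)
  have hesq : ∀ u : V →+ K, e0 (sq u) = ∑ v ∈ T.blkH c, (u v * a v u) • ev v := by
    intro u
    rw [he0]
    apply LinearMap.ext
    intro θ
    rw [LinearMap.sum_apply, LinearMap.sum_apply]
    have h1 := htri u θ u
    have h2 : ∑ v ∈ T.blkH c, ((sq u) v • a v) θ = ∑ v ∈ T.blkH c, a v θ * u v * u v := by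
      refine Finset.sum_congr rfl fun v _ => ?_
      rw [LinearMap.smul_apply, smul_eq_mul, sq_apply]
      ring
    have h3 : ∑ v ∈ T.blkH c, ((u v * a v u) • ev v : Module.Dual K (V →+ K)) θ =
        ∑ v ∈ T.blkH c, a v u * θ v * u v := by
      refine Finset.sum_congr rfl fun v _ => ?_
      rw [LinearMap.smul_apply, smul_eq_mul, ev_apply]
      ring
    rw [h2, h3, h1]
  have heY : ∀ ζ, e0 ζ ∈ Ysp T c := by
    intro ζ
    obtain ⟨u, rfl⟩ := exists_sq hs ζ
    rw [hesq]
    exact Submodule.sum_mem _ fun v hv => Submodule.smul_mem _ _ (hevY v hv)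
  let e : (V →+ K) →ₗ[K] Ysp T c := e0.codRestrict _ heY
  let f : (V →+ K) →ₗ[K] Ysp T c := f0.codRestrict _ hfY
  let Y'0 : Submodule K (Module.Dual K (V →+ K)) :=
    Submodule.span K (ev '' {v | v ∈ T.blkH c ∧ ∃ u, T.μ v u ≠ 0})
  have key := TRV K hs (V →+ K) (Ysp T c) ((lamb T.β ψ) ∘ₗ (Ysp T c).subtype)
    (fun y => lamb_alt B hψ y.2) e f (by
      intro ζ θ
      show (e0 ζ) θ = (f0 θ) ζ
      rw [he0, hf0, LinearMap.sum_apply, LinearMap.sum_apply]
      refine Finset.sum_congr rfl fun v _ => ?_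
      rw [LinearMap.smul_apply, LinearMap.smul_apply, smul_eq_mul, smul_eq_mul, ev_apply, mul_comm])
    (by
      intro ζ
      apply Subtype.ext
      show e0 ζ + f0 ζ + e0 (lamb T.β ψ (f0 ζ)) = 0
      apply LinearMap.ext
      intro u'
      rw [LinearMap.add_apply, LinearMap.add_apply, LinearMap.zero_apply]
      have h1 := rel B ha ζ u'
      have h2 : (e0 ζ) u' = ∑ w ∈ T.blkH c, ζ w * a w u' := by
        rw [he0, LinearMap.sum_apply]
        rfl
      have h3 : (f0 ζ) u' = ∑ w ∈ T.blkH c, u' w * a w ζ := by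
        rw [hf0, LinearMap.sum_apply]
        refine Finset.sum_congr rfl fun v _ => ?_
        rw [LinearMap.smul_apply, smul_eq_mul, ev_apply, mul_comm]
      have h4 : (e0 (lamb T.β ψ (f0 ζ))) u' =
          ∑ v ∈ T.blkH c, ∑ v' ∈ T.blkH c, lam K T.β v v' * a v' ζ * a v u' := by
        rw [he0, LinearMap.sum_apply]
        refine Finset.sum_congr rfl fun v _ => ?_
        rw [LinearMap.smul_apply, smul_eq_mul, hf0, map_sum, AddMonoidHom.finsetSum_apply,
          Finset.sum_mul]
        refine Finset.sum_congr rfl fun v' hv' => ?_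
        rw [map_smul]
        show (a v' ζ * (lamb T.β ψ (ev v')) v) * a v u' = _
        rw [lamb_ev B hψ (hval v' hv'), lam_symm B v' v]
        ring
      rw [h2, h3, h4]
      exact h1)
    (Y'0.comap (Ysp T c).subtype) (by
      intro ζ
      show f0 ζ ∈ Y'0
      rw [hf0]
      refine Submodule.sum_mem _ fun v hv => ?_
      by_cases h1 : a v ζ = 0
      · rw [h1, zero_smul]
        exact Submodule.zero_mem _
      · refine Submodule.smul_mem _ _ (Submodule.subset_span ⟨v, ⟨hv, ζ, ?_⟩, rfl⟩)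
        intro h2
        obtain ⟨x, hx⟩ := exists_ne (T := T) (blk_ne hv)
        have h3 := ha v hv ζ x
        rw [h2, lam_one_iff.2 hx, mul_one] at h3
        exact h1 h3.symm)
  have hΓe : (1 : Module.End K (V →+ K)) + Γ =
      1 + ((lamb T.β ψ) ∘ₗ (Ysp T c).subtype) ∘ₗ e := by
    congr 1
    apply LinearMap.ext
    intro ζ
    obtain ⟨u, rfl⟩ := exists_sq hs ζ
    rw [hΓ u]
    show _ = lamb T.β ψ (e0 (sq u))
    rw [hesq, map_sum]
    unfold Tor.bq
    refine Finset.sum_congr rfl fun v hv => ?_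
    rw [map_smul]
    ext x
    show u v * T.μ v u x = (u v * a v u) * (lamb T.β ψ (ev v)) x
    rw [ha v hv, lamb_ev B hψ (hval v hv)]
    ring
  rw [hΓe]
  refine Submonoid.closure_mono ?_ key
  rintro N ⟨y, hy, rfl⟩
  have hrep : ∃ b : V → K, (∀ v, b v ≠ 0 → v ∈ T.blkH c ∧ ∃ u, T.μ v u ≠ 0) ∧
      (y : Module.Dual K (V →+ K)) = ∑ v, b v • ev v := by
    have hy2 : (y : Module.Dual K (V →+ K)) ∈ Y'0 := hy
    generalize (y : Module.Dual K (V →+ K)) = z at hy2
    induction hy2 using Submodule.span_induction with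
    | mem x h =>
      obtain ⟨v, hv, rfl⟩ := h
      refine ⟨fun v' => if v' = v then 1 else 0, ?_, ?_⟩
      · intro v' hv'
        by_cases h1 : v' = v
        · rw [h1]
          exact hv
        · exact absurd (if_neg h1) hv'
      · have h2 : ∀ v' ∈ (Finset.univ : Finset V), (if v' = v then (1 : K) else 0) •
            (ev v' : Module.Dual K (V →+ K)) = if v' = v then ev v' else 0 := by
          intro v' _
          split_ifs
          · rw [one_smul]
          · rw [zero_smul]
        rw [Finset.sum_congr rfl h2, Finset.sum_ite_eq' Finset.univ v,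
          if_pos (Finset.mem_univ _)]
    | zero =>
      exact ⟨0, fun v hv => absurd rfl hv, by simp⟩
    | add x z _ _ h1 h2 =>
      obtain ⟨b1, hb1, e1⟩ := h1
      obtain ⟨b2, hb2, e2⟩ := h2
      refine ⟨b1 + b2, ?_, ?_⟩
      · intro v hv
        by_cases h3 : b1 v = 0
        · apply hb2
          intro h4
          apply hv
          rw [Pi.add_apply, h3, h4, add_zero]
        · exact hb1 v h3
      · rw [e1, e2, ← Finset.sum_add_distrib]
        exact Finset.sum_congr rfl fun v _ => (add_smul _ _ _).symm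
    | smul k x _ h1 =>
      obtain ⟨b1, hb1, e1⟩ := h1
      refine ⟨fun v => k * b1 v, ?_, ?_⟩
      · intro v hv
        exact hb1 v (right_ne_zero_of_mul hv)
      · rw [e1, Finset.smul_sum]
        exact Finset.sum_congr rfl fun v _ => smul_smul _ _ _
  obtain ⟨b, hb, hyb⟩ := hrep
  refine ⟨c, b, ?_, ?_⟩
  · intro v hv
    obtain ⟨hvI, u, hu⟩ := hb v hv
    refine ⟨hval v hvI, ?_⟩
    obtain ⟨φ, hφ⟩ := (T.hT v (blk_ne hvI) u hu).2
    have hau : a v u ≠ 0 := by
      intro h
      apply hu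
      ext x
      rw [ha v hvI, h, zero_mul]
      rfl
    refine ⟨(a v u)⁻¹ • φ, fun x => ?_⟩
    show (a v u)⁻¹ * φ (T.q x) = _
    rw [hφ x, ha v hvI]
    have h1 := lam_sq (T := T) (v := v) (x := T.p x)
    calc (a v u)⁻¹ * (lam K T.β v (T.p x) * (a v u * lam K T.β v (T.p x))) =
        ((a v u)⁻¹ * a v u) * (lam K T.β v (T.p x) * lam K T.β v (T.p x)) := by ring
      _ = lam K T.β v (T.p x) := by rw [inv_mul_cancel₀ hau, one_mul, h1]
  · intro ζ x
    show ζ x + (y : Module.Dual K (V →+ K)) ζ * (lamb T.β ψ (y : Module.Dual K (V →+ K))) x = _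
    congr 1
    rw [hyb, LinearMap.sum_apply, map_sum, AddMonoidHom.finsetSum_apply]
    congr 1
    refine Finset.sum_congr rfl fun v _ => ?_
    rw [map_smul]
    show b v * (lamb T.β ψ (ev v)) x = _
    by_cases h1 : b v = 0
    · rw [h1, zero_mul, zero_mul]
    · rw [lamb_ev B hψ (hval v (hb v h1).1)]

end Pool.Agent.Q48.MI2
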