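import Pool.Agent.Q48.MI2.Ham

/-!
# Project MI2 (helper12): PG, the split planes
-/

set_option autoImplicit false

namespace Pool.Agent.Q48.MI2

open Finset Q12.MI2 Q12.MI2.Tor

universe u

section

variable {K : Type u} {V W V₀ : Type} [Field K] [CharP K 2] [AddCommGroup V] [Fintype V]
  [AddCommGroup W] [AddCommGroup V₀] {T : Tor K V W V₀} (B : BadFacts T)

omit [CharP K 2] in
lemma inQ_congr {f f' : V₀ → K} (h : ∀ x, f x = f' x) (hf : T.InQ f) : T.InQ f' := by
  obtain ⟨φ, hφ⟩ := hf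
  exact ⟨φ, fun x => (hφ x).trans (h x)⟩

omit [CharP K 2] in
lemma inQ_add {f f' : V₀ → K} (hf : T.InQ f) (hf' : T.InQ f') : T.InQ (fun x => f x + f' x) := by
  obtain ⟨φ, hφ⟩ := hf
  obtain ⟨φ', hφ'⟩ := hf'
  refine ⟨φ + φ', fun x => ?_⟩
  rw [AddMonoidHom.add_apply, hφ, hφ']

omit [CharP K 2] in
lemma inQ_smul (k : K) {f : V₀ → K} (hf : T.InQ f) : T.InQ (fun x => k * f x) := by
  obtain ⟨φ, hφ⟩ := hf
  refine ⟨k • φ, fun x => ?_⟩
  show k * φ (T.q x) = _
  rw [hφ]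

omit [CharP K 2] in
lemma inQ_zero : T.InQ (fun _ => (0 : K)) := ⟨0, fun _ => rfl⟩

/-- additive maps with values zero and one -/
lemma exists_rho {s : K} (hs : s ≠ 0) : ∃ ρ : K →+ K, ρ s = 1 ∧ ∀ x, ρ x = 0 ∨ ρ x = 1 := by
  letI : Module (ZMod 2) K := AddCommGroup.zmodModule (fun w => by
    rw [two_nsmul]; exact CharTwo.add_self_eq_zero w)
  obtain ⟨φ, hφ⟩ : ∃ φ : Module.Dual (ZMod 2) K, φ s ≠ 0 := by
    by_contra hcon
    push Not at hcon
    exact hs ((Module.forall_dual_apply_eq_zero_iff (ZMod 2) s).1 hcon)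
  have key : ∀ x : ZMod 2, x = 0 ∨ x = 1 := by decide
  refine ⟨(ZMod.castHom (dvd_refl 2) K).toAddMonoidHom.comp φ.toAddMonoidHom, ?_, ?_⟩
  · show ZMod.castHom (dvd_refl 2) K (φ s) = 1
    rw [(key _).resolve_left hφ, map_one]
  · intro x
    show ZMod.castHom (dvd_refl 2) K (φ x) = 0 ∨ ZMod.castHom (dvd_refl 2) K (φ x) = 1
    rcases key (φ x) with h | h
    · left
      rw [h, map_zero]
    · right
      rw [h, map_one]

omit [CharP K 2] in
lemma lam_cases (v x : V) : lam K T.β v x = 0 ∨ lam K T.β v x = 1 := by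
  unfold lam
  split_ifs
  · exact Or.inl rfl
  · exact Or.inr rfl

/-- the coefficients of the linear combinations in `Q` -/
def QQ (T : Tor K V W V₀) (y₁ y₂ : V) (s t : K) : Prop :=
  T.InQ (fun x => s * lam K T.β y₁ (T.p x) + t * lam K T.β y₂ (T.p x))

omit [CharP K 2] in
lemma QQ_add {y₁ y₂ : V} {s t s' t' : K} (h : QQ T y₁ y₂ s t) (h' : QQ T y₁ y₂ s' t') :
    QQ T y₁ y₂ (s + s') (t + t') := by
  refine inQ_congr (fun x => ?_) (inQ_add h h')
  ring

omit [CharP K 2] in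
lemma QQ_smul {y₁ y₂ : V} (k : K) {s t : K} (h : QQ T y₁ y₂ s t) :
    QQ T y₁ y₂ (k * s) (k * t) := by
  refine inQ_congr (fun x => ?_) (inQ_smul k h)
  ring

omit [CharP K 2] in
lemma QQ_rho {y₁ y₂ : V} {ρ : K →+ K} {s t : K} (h : QQ T y₁ y₂ s t) :
    QQ T y₁ y₂ (ρ s) (ρ t) := by
  obtain ⟨φ, hφ⟩ := h
  refine ⟨ρ.comp φ, fun x => ?_⟩
  rw [AddMonoidHom.comp_apply, hφ, map_add]
  congr 1
  · rcases lam_cases (T := T) y₁ (T.p x) with h | h <;> rw [h] <;> simp
  · rcases lam_cases (T := T) y₂ (T.p x) with h | h <;> rw [h] <;> simp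

/-- the shape of the space of the coefficients -/
lemma QQ_cases (y₁ y₂ : V) :
    (QQ T y₁ y₂ 1 0 ∧ QQ T y₁ y₂ 0 1) ∨ (QQ T y₁ y₂ 1 0 ∧ ∀ s t, QQ T y₁ y₂ s t → t = 0) ∨
    (QQ T y₁ y₂ 0 1 ∧ ∀ s t, QQ T y₁ y₂ s t → s = 0) ∨
    (QQ T y₁ y₂ 1 1 ∧ ∀ s t, QQ T y₁ y₂ s t → s = t) ∨
    (∀ s t, QQ T y₁ y₂ s t → s = 0 ∧ t = 0) := by
  have h2 : ∀ k : K, k + k = 0 := CharTwo.add_self_eq_zero
  have e1 : ∀ t, QQ T y₁ y₂ 0 t → t ≠ 0 → QQ T y₁ y₂ 0 1 := by
    intro t ht ht0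
    have := QQ_smul t⁻¹ ht
    rwa [mul_zero, inv_mul_cancel₀ ht0] at this
  have e2 : ∀ s, QQ T y₁ y₂ s 0 → s ≠ 0 → QQ T y₁ y₂ 1 0 := by
    intro s hs hs0
    have := QQ_smul s⁻¹ hs
    rwa [mul_zero, inv_mul_cancel₀ hs0] at this
  by_cases h10 : QQ T y₁ y₂ 1 0
  · by_cases h01 : QQ T y₁ y₂ 0 1
    · exact Or.inl ⟨h10, h01⟩
    · right; left
      refine ⟨h10, fun s t hst => ?_⟩
      by_contra ht
      apply h01
      refine e1 t ?_ ht
      have h3 := QQ_add hst (QQ_smul s h10)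
      rw [mul_one, h2, mul_zero, add_zero] at h3
      exact h3
  · by_cases h01 : QQ T y₁ y₂ 0 1
    · right; right; left
      refine ⟨h01, fun s t hst => ?_⟩
      by_contra hs
      apply h10
      refine e2 s ?_ hs
      have h3 := QQ_add hst (QQ_smul t h01)
      rw [mul_one, h2, mul_zero, add_zero] at h3
      exact h3
    · right; right; right
      by_cases h11 : QQ T y₁ y₂ 1 1
      · left
        refine ⟨h11, fun s t hst => ?_⟩
        by_contra hs
        apply h10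
        have h3 := QQ_add hst (QQ_smul t h11)
        rw [mul_one, h2] at h3
        refine e2 _ h3 ?_
        intro h4
        exact hs (CharTwo.add_eq_zero.1 h4)
      · right
        intro s t hst
        have hs : s = 0 := by
          by_contra hs
          obtain ⟨ρ, hρ1, hρ2⟩ := exists_rho hs
          have h3 := QQ_rho (ρ := ρ) hst
          rw [hρ1] at h3
          rcases hρ2 t with h | h
          · rw [h] at h3
            exact h10 h3
          · rw [h] at h3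
            exact h11 h3
        refine ⟨hs, ?_⟩
        by_contra ht
        rw [hs] at hst
        exact h01 (e1 t hst ht)

omit [CharP K 2] in
include B in
/-- the additive function of a bad vector -/
noncomputable def Lf {v : V} (h : Bad T.β v) : V →+ K where
  toFun := lam K T.β v
  map_zero' := by
    unfold lam
    rw [map_zero, if_pos rfl]
  map_add' := B.ladd v h

end

/-- PG. -/
theorem t_PG : S_PG.{u} := by
  classical
  intro K _ _ hs V W V₀ _ _ _ _ T B c hP hsym Γ g hΓ hStab hinj hg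
  obtain ⟨y₁, y₂, hc, hβ, hv1, hv2, hall, hQ12⟩ := hP
  have h2 : ∀ k : K, k + k = 0 := CharTwo.add_self_eq_zero
  have hβ' : T.β y₂ y₁ = c := by rw [B.sym]; exact hβ
  have hy1 : y₁ ≠ 0 := by
    rintro rfl
    apply hc
    rw [← hβ, map_zero]
    rfl
  have hy2 : y₂ ≠ 0 := by
    rintro rfl
    apply hc
    rw [← hβ, map_zero]
  have hne : y₁ ≠ y₂ := by
    rintro rfl
    apply hc
    rw [← hβ, B.alt]
  have hy3 : y₁ + y₂ ≠ 0 := by
    intro h
    apply hne
    have h3 : y₁ + y₂ + y₂ = 0 + y₂ := by rw [h]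
    rwa [add_assoc, T.hV, add_zero, zero_add] at h3
  have hv3 : T.Val c (y₁ + y₂) := B.yadd c y₁ y₂ hv1 hv2
  have hb1 : Bad T.β y₁ := ⟨hy1, c, hv1⟩
  have hb2 : Bad T.β y₂ := ⟨hy2, c, hv2⟩
  have hb3 : Bad T.β (y₁ + y₂) := ⟨hy3, c, hv3⟩
  have hβ31 : T.β (y₁ + y₂) y₁ = c := by
    rw [map_add, AddMonoidHom.add_apply, B.alt, zero_add, hβ']
  have h31 : y₁ + y₂ ≠ y₁ := by
    intro h
    apply hy2
    exact add_eq_left.1 h
  have h32 : y₁ + y₂ ≠ y₂ := by
    intro h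
    apply hy1
    exact add_eq_right.1 h
  have hI : T.blkH c = {y₁, y₂, y₁ + y₂} := by
    ext v
    rw [mem_blkH, Finset.mem_insert, Finset.mem_insert, Finset.mem_singleton]
    constructor
    · rintro ⟨h3, h4⟩
      exact (hall v h4).resolve_left h3.1.1
    · rintro (rfl | rfl | rfl)
      · exact ⟨⟨hb1, _, hb2, by rw [hβ]; exact hc⟩, hv1⟩
      · exact ⟨⟨hb2, _, hb1, by rw [hβ']; exact hc⟩, hv2⟩
      · exact ⟨⟨hb3, _, hb1, by rw [hβ31]; exact hc⟩, hv3⟩
  have hsum : ∀ {M : Type u} [AddCommMonoid M] (F : V → M), ∑ v ∈ T.blkH c, F v =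
      F y₁ + (F y₂ + F (y₁ + y₂)) := by
    intro M _ F
    rw [hI, Finset.sum_insert, Finset.sum_insert, Finset.sum_singleton]
    · rw [Finset.mem_singleton]
      exact fun h => h32 h.symm
    · rw [Finset.mem_insert, Finset.mem_singleton, not_or]
      exact ⟨hne, fun h => h31 h.symm⟩
  -- the values of the functions
  have l11 : lam K T.β y₁ y₁ = 0 := lam_self B y₁
  have l12 : lam K T.β y₁ y₂ = 1 := lam_one_iff.2 (by rw [hβ]; exact hc)
  have l21 : lam K T.β y₂ y₁ = 1 := lam_one_iff.2 (by rw [hβ']; exact hc)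
  have l22 : lam K T.β y₂ y₂ = 0 := lam_self B y₂
  have l3 : ∀ x, lam K T.β (y₁ + y₂) x = lam K T.β y₁ x + lam K T.β y₂ x :=
    B.lamadd c y₁ y₂ hv1 hv2
  -- the components
  have hmu : ∀ v ∈ T.blkH c, ∀ u x, T.μ v u x = T.μ v u y₂ * lam K T.β y₁ x +
      T.μ v u y₁ * lam K T.β y₂ x := by
    intro v hv u x
    rw [hI, Finset.mem_insert, Finset.mem_insert, Finset.mem_singleton] at hv
    rcases hv with rfl | rfl | rfl
    · rw [B.plane v y₂ u hb1 hb2 (by rw [hβ]; exact hc) x]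
      ring
    · rw [B.plane v y₁ u hb2 hb1 (by rw [hβ']; exact hc) x]
    · rw [B.plane (y₁ + y₂) y₁ u hb3 hb1 (by rw [hβ31]; exact hc) x, l3, map_add]
      linear_combination (lam K T.β y₁ x) * h2 (T.μ (y₁ + y₂) u y₁)
  have hΓx : ∀ ζ x, Γ ζ x = Γ ζ y₂ * lam K T.β y₁ x + Γ ζ y₁ * lam K T.β y₂ x := by
    intro ζ x
    obtain ⟨u, rfl⟩ := exists_sq hs ζ
    rw [hΓ u]
    unfold Tor.bq
    rw [AddMonoidHom.finsetSum_apply, AddMonoidHom.finsetSum_apply, AddMonoidHom.finsetSum_apply,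
      Finset.sum_mul, Finset.sum_mul, ← Finset.sum_add_distrib]
    refine Finset.sum_congr rfl fun v hv => ?_
    show u v * T.μ v u x = u v * T.μ v u y₂ * _ + u v * T.μ v u y₁ * _
    rw [hmu v hv u x]
    ring
  obtain ⟨L1, hL1⟩ : ∃ L : V →+ K, ∀ x, L x = lam K T.β y₁ x := ⟨Lf B hb1, fun _ => rfl⟩
  obtain ⟨L2, hL2⟩ : ∃ L : V →+ K, ∀ x, L x = lam K T.β y₂ x := ⟨Lf B hb2, fun _ => rfl⟩
  have hker : ∀ ζ : V →+ K, ζ y₁ = 0 → ζ y₂ = 0 → Γ ζ = 0 := by
    intro ζ h3 h4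
    obtain ⟨u, rfl⟩ := exists_sq hs ζ
    rw [sq_apply] at h3 h4
    have h5 : u y₁ = 0 := pow_eq_zero_iff two_ne_zero |>.1 h3
    have h6 : u y₂ = 0 := pow_eq_zero_iff two_ne_zero |>.1 h4
    rw [hΓ u]
    unfold Tor.bq
    rw [hsum, map_add, h5, h6, add_zero, zero_smul, zero_smul, zero_smul, add_zero, add_zero]
  have hΓl : ∀ ζ : V →+ K, Γ ζ = ζ y₁ • Γ L2 + ζ y₂ • Γ L1 := by
    intro ζ
    have h3 := hker (ζ + ζ y₁ • L2 + ζ y₂ • L1) (by
      show ζ y₁ + ζ y₁ * L2 y₁ + ζ y₂ * L1 y₁ = 0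
      rw [hL1, hL2, l11, l21, mul_one, mul_zero, add_zero, h2]) (by
      show ζ y₂ + ζ y₁ * L2 y₂ + ζ y₂ * L1 y₂ = 0
      rw [hL1, hL2, l12, l22, mul_one, mul_zero, add_zero, h2])
    rw [map_add, map_add, map_smul, map_smul, add_assoc] at h3
    have h4 : ∀ a b : V →+ K, a + b = 0 → a = b := by
      intro a b h
      ext x
      have := congrArg (fun ζ : V →+ K => ζ x) h
      exact CharTwo.add_eq_zero.1 this
    exact h4 _ _ h3
  -- the functions sq L
  have hsq1 : sq L1 = L1 := by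
    ext x
    rw [sq_apply, hL1, pow_two, lam_sq]
  have hsq2 : sq L2 = L2 := by
    ext x
    rw [sq_apply, hL2, pow_two, lam_sq]
  have hΓL2 : ∀ x, Γ L2 x = T.μ y₁ L2 x + T.μ (y₁ + y₂) L2 x := by
    intro x
    conv_lhs => rw [← hsq2, hΓ L2]
    unfold Tor.bq
    rw [hsum, map_add, hL2, hL2, l21, l22]
    show 1 * T.μ y₁ L2 x + (0 * T.μ y₂ L2 x + (1 + 0) * T.μ (y₁ + y₂) L2 x) = _
    ring
  have hΓL1 : ∀ x, Γ L1 x = T.μ y₂ L1 x + T.μ (y₁ + y₂) L1 x := by
    intro x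
    conv_lhs => rw [← hsq1, hΓ L1]
    unfold Tor.bq
    rw [hsum, map_add, hL1, hL1, l11, l12]
    show 0 * T.μ y₁ L1 x + (1 * T.μ y₂ L1 x + (0 + 1) * T.μ (y₁ + y₂) L1 x) = _
    ring
  have hI1 : y₁ ∈ T.blkH c := by rw [hI]; simp
  have hI2 : y₂ ∈ T.blkH c := by rw [hI]; simp
  have hI3 : y₁ + y₂ ∈ T.blkH c := by rw [hI]; simp
  have hQmu : ∀ v ∈ T.blkH c, ∀ u, T.InQ (fun x => lam K T.β v (T.p x) * T.μ v u (T.p x)) := by
    intro v hv u
    by_cases h3 : T.μ v u = 0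
    · refine inQ_congr (fun x => ?_) inQ_zero
      rw [h3]
      simp
    · exact (T.hT v (blk_ne hv) u h3).2
  have F1 : ∀ u, QQ T y₁ y₂ (T.μ y₁ u y₂) 0 := by
    intro u
    refine inQ_congr (fun x => ?_) (inQ_add (hQmu y₁ hI1 u) (inQ_smul (T.μ y₁ u y₁) hQ12))
    rw [hmu y₁ hI1 u (T.p x)]
    have h3 := lam_sq (T := T) (v := y₁) (x := T.p x)
    linear_combination (T.μ y₁ u y₂) * h3 +
      h2 (T.μ y₁ u y₁ * (lam K T.β y₁ (T.p x) * lam K T.β y₂ (T.p x)))
  have F2 : ∀ u, QQ T y₁ y₂ 0 (T.μ y₂ u y₁) := by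
    intro u
    refine inQ_congr (fun x => ?_) (inQ_add (hQmu y₂ hI2 u) (inQ_smul (T.μ y₂ u y₂) hQ12))
    rw [hmu y₂ hI2 u (T.p x)]
    have h3 := lam_sq (T := T) (v := y₂) (x := T.p x)
    linear_combination (T.μ y₂ u y₁) * h3 +
      h2 (T.μ y₂ u y₂ * (lam K T.β y₁ (T.p x) * lam K T.β y₂ (T.p x)))
  have F3 : ∀ u, QQ T y₁ y₂ (T.μ (y₁ + y₂) u y₂) (T.μ (y₁ + y₂) u y₁) := by
    intro u
    refine inQ_congr (fun x => ?_) (inQ_add (hQmu (y₁ + y₂) hI3 u)
      (inQ_smul (T.μ (y₁ + y₂) u y₂ + T.μ (y₁ + y₂) u y₁) hQ12))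
    rw [hmu (y₁ + y₂) hI3 u (T.p x), l3]
    have h3 := lam_sq (T := T) (v := y₁) (x := T.p x)
    have h4 := lam_sq (T := T) (v := y₂) (x := T.p x)
    linear_combination (T.μ (y₁ + y₂) u y₂) * h3 + (T.μ (y₁ + y₂) u y₁) * h4 +
      h2 ((T.μ (y₁ + y₂) u y₂ + T.μ (y₁ + y₂) u y₁) *
        (lam K T.β y₁ (T.p x) * lam K T.β y₂ (T.p x)))
  obtain ⟨P, hPd⟩ : ∃ P, P = Γ L2 y₂ := ⟨_, rfl⟩
  obtain ⟨D, hDd⟩ : ∃ D, D = Γ L2 y₁ := ⟨_, rfl⟩
  obtain ⟨D', hD'd⟩ : ∃ D', D' = Γ L1 y₂ := ⟨_, rfl⟩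
  obtain ⟨R, hRd⟩ : ∃ R, R = Γ L1 y₁ := ⟨_, rfl⟩
  have hG2 : ∀ x, Γ L2 x = P * lam K T.β y₁ x + D * lam K T.β y₂ x := by
    intro x
    rw [hPd, hDd]
    exact hΓx L2 x
  have hG1 : ∀ x, Γ L1 x = D' * lam K T.β y₁ x + R * lam K T.β y₂ x := by
    intro x
    rw [hD'd, hRd]
    exact hΓx L1 x
  have hPR : QQ T y₁ y₂ P R := by
    have hP' : P = T.μ y₁ L2 y₂ + T.μ (y₁ + y₂) L2 y₂ := by rw [hPd, hΓL2]
    have hR' : R = T.μ y₂ L1 y₁ + T.μ (y₁ + y₂) L1 y₁ := by rw [hRd, hΓL1]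
    rcases QQ_cases (T := T) y₁ y₂ with ⟨h10, h01⟩ | ⟨h10, ht⟩ | ⟨h01, hs0⟩ | ⟨h11, hst⟩ | h00
    · have := QQ_add (QQ_smul P h10) (QQ_smul R h01)
      simpa using this
    · have hR0 : R = 0 := by
        rw [hR', ht _ _ (F2 L1), ht _ _ (F3 L1), add_zero]
      rw [hR0]
      have := QQ_smul P h10
      simpa using this
    · have hP0 : P = 0 := by
        rw [hP', hs0 _ _ (F1 L2), hs0 _ _ (F3 L2), add_zero]
      rw [hP0]
      have := QQ_smul R h01
      simpa using this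
    · have hgL1 : g L1 = Γ L1 := hg y₁ L1 hv1 hL1
      have hgL2 : g L2 = Γ L2 := hg y₂ L2 hv2 hL2
      -- the product of the two functions
      have hE1 : (1 + D') * P = (1 + D) * R := by
        have h3 := hStab L1 L2 0 0 (inQ_congr (fun x => by
          rw [hL1, hL2]
          simp) hQ12)
        apply hst
        refine inQ_congr (fun x => ?_) (inQ_add h3
          (inQ_smul ((1 + D') * (1 + D) + R * P) hQ12))
        rw [hgL1, hgL2]
        simp only [map_zero, AddMonoidHom.add_apply, AddMonoidHom.zero_apply, add_zero, mul_zero]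
        rw [hL1, hL2, hG1, hG2]
        have h4 := lam_sq (T := T) (v := y₁) (x := T.p x)
        have h5 := lam_sq (T := T) (v := y₂) (x := T.p x)
        linear_combination ((1 + D') * P) * h4 + ((1 + D) * R) * h5 +
          h2 (((1 + D') * (1 + D) + R * P) * (lam K T.β y₁ (T.p x) * lam K T.β y₂ (T.p x)))
      -- the square of the sum
      have hE2 : P + R = D + D' := by
        have h3 := hStab (L1 + L2) (L1 + L2) 0 0 (inQ_congr (fun x => by
          simp only [AddMonoidHom.add_apply, AddMonoidHom.zero_apply, mul_zero, add_zero]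
          rw [hL1, hL2]
          have h4 := lam_sq (T := T) (v := y₁) (x := T.p x)
          have h5 := lam_sq (T := T) (v := y₂) (x := T.p x)
          linear_combination -h4 - h5 - h2 (lam K T.β y₁ (T.p x) * lam K T.β y₂ (T.p x))) h11)
        have h6 : (1 + D' + P) ^ 2 = (1 + D + R) ^ 2 := by
          apply hst
          refine inQ_congr (fun x => ?_) h3
          simp only [map_add, map_zero, AddMonoidHom.add_apply, AddMonoidHom.zero_apply, add_zero,
            mul_zero]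
          rw [hgL1, hgL2, hL1, hL2, hG1, hG2]
          have h4 := lam_sq (T := T) (v := y₁) (x := T.p x)
          have h5 := lam_sq (T := T) (v := y₂) (x := T.p x)
          linear_combination ((1 + D' + P) ^ 2) * h4 + ((1 + D + R) ^ 2) * h5 +
            h2 ((1 + D' + P) * (1 + D + R) *
              (lam K T.β y₁ (T.p x) * lam K T.β y₂ (T.p x)))
        have h7 := sq_inj h6
        linear_combination h7 + h2 R - h2 D'
      -- injectivity
      have hdet : (1 + D) * (1 + D') + P * R ≠ 0 := by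
        intro hdet
        have hsing : ∀ a b : K, a * (1 + D') + b * P = 0 → a * R + b * (1 + D) = 0 →
            a = 0 ∧ b = 0 := by
          intro a b h3 h4
          have h5 : a • L1 + b • L2 = 0 := by
            apply hinj
            ext x
            show a * L1 x + b * L2 x + g (a • L1 + b • L2) x = 0
            rw [map_add, map_smul, map_smul, hgL1, hgL2]
            show a * L1 x + b * L2 x + (a * Γ L1 x + b * Γ L2 x) = 0
            rw [hL1, hL2, hG1, hG2]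
            linear_combination (lam K T.β y₁ x) * h3 + (lam K T.β y₂ x) * h4
          have h6 : (a • L1 + b • L2) y₂ = 0 := by rw [h5]; rfl
          have h7 : (a • L1 + b • L2) y₁ = 0 := by rw [h5]; rfl
          have h8 : a * L1 y₂ + b * L2 y₂ = 0 := h6
          have h9 : a * L1 y₁ + b * L2 y₁ = 0 := h7
          rw [hL1, hL2, l12, l22, mul_one, mul_zero, add_zero] at h8
          rw [hL1, hL2, l11, l21, mul_one, mul_zero, zero_add] at h9
          exact ⟨h8, h9⟩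
        have h3 := hsing P (1 + D') (by linear_combination h2 (P * (1 + D')))
          (by linear_combination hdet)
        have h4 := hsing (1 + D) R (by linear_combination hdet)
          (by linear_combination h2 (R * (1 + D)))
        have h5 := hsing 1 0 (by rw [h3.2]; ring) (by rw [h4.2]; ring)
        exact one_ne_zero h5.1
      have hPReq : P = R := by
        by_contra hne'
        have hs : P + R ≠ 0 := by
          intro h
          exact hne' (CharTwo.add_eq_zero.1 h)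
        have h3 : (P + R) * (1 + P + D) = 0 := by
          have hD' : D' = P + R + D := by linear_combination -hE2 - h2 D
          rw [hD'] at hE1
          linear_combination hE1 + h2 (R + D * R)
        have h4 : 1 + P + D = 0 := (mul_eq_zero.1 h3).resolve_left hs
        apply hdet
        have hPe : P = 1 + D := by linear_combination h4 - h2 1 - h2 D
        have hRe : R = 1 + D' := by
          linear_combination hE2 - hPe - h2 1
        rw [hRe, hPe]
        exact h2 _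
      rw [← hPReq]
      have := QQ_smul P h11
      simpa using this
    · have hP0 : P = 0 := by
        rw [hP', (h00 _ _ (F1 L2)).1, (h00 _ _ (F3 L2)).1, add_zero]
      have hR0 : R = 0 := by
        rw [hR', (h00 _ _ (F2 L1)).2, (h00 _ _ (F3 L1)).2, add_zero]
      rw [hP0, hR0]
      refine inQ_congr (fun x => ?_) inQ_zero
      ring
  -- the conclusion
  intro ψ
  have hψv : ∀ v, T.Val c v → ∀ x, ψ (T.β x v) = ψ c * lam K T.β v x := by
    intro v hv x
    rw [B.sym]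
    rcases hv x with h | h
    · rw [lam_zero_iff.2 h, h, map_zero, mul_zero]
    · rw [h, lam_one_iff.2 (by rw [h]; exact hc), mul_one]
  refine inQ_congr (fun x => ?_) (inQ_add (inQ_smul (ψ c) hPR)
    (inQ_smul (ψ c * (D + D')) hQ12))
  rw [hΓl]
  show _ = ψ (T.β (T.p x) y₁) * Γ L2 (T.p x) + ψ (T.β (T.p x) y₂) * Γ L1 (T.p x)
  rw [hψv y₁ hv1, hψv y₂ hv2, hG1, hG2]
  have h4 := lam_sq (T := T) (v := y₁) (x := T.p x)
  have h5 := lam_sq (T := T) (v := y₂) (x := T.p x)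
  linear_combination (-(ψ c) * P) * h4 - (ψ c * R) * h5

end Pool.Agent.Q48.MI2
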